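import Pool.Agent.OM55.Outer

/-!
# RN69 : reduction to rim-separable subspaces

A metric space locally of weight at most `aleph_1` whose small transfinite dimension exists is a
countable union of subspaces with `ind ≤ 0` as soon as all its rim-separable subspaces are.
-/

set_option autoImplicit false

namespace Pool.Agent.RN69

open Set Topology Metric Cardinal
open Pool.Agent.RM69 Pool.Agent.OM55

universe u v

/-- The subspace `Y` is rim-separable: its points have arbitrarily small open neighbourhoods with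
separable boundaries (in `Y`). -/
def RimSep {X : Type u} [TopologicalSpace X] (Y : Set X) : Prop :=
  ∀ x ∈ Y, ∀ U : Set X, IsOpen U → x ∈ U →
    ∃ V : Set X, IsOpen V ∧ x ∈ V ∧ V ∩ Y ⊆ U ∧
      TopologicalSpace.IsSeparable ((closure (V ∩ Y) ∩ Y) \ V)

/-- **The reduction step**: a space with small neighbourhoods whose boundaries are countable unions
of subspaces with `ind ≤ 0`, dense sequence indexed by a well-order with countable initial
segments. -/
theorem exists_rimSep {T : Type u} [MetricSpace T]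
    (hT : ∀ x : T, ∀ U : Set T, IsOpen U → x ∈ U →
      ∃ V, IsOpen V ∧ x ∈ V ∧ V ⊆ U ∧ SigmaZero (frontier V))
    {I : Type v} [LinearOrder I] [WellFoundedLT I]
    (hI : ∀ i : I, (Iic i).Countable) (a : I → T) (ha : closure (range a) = Set.univ) :
    ∃ E : Set T, SigmaZero Eᶜ ∧ RimSep E := by
  obtain ⟨W, hWo, hWb, hWG, hbase⟩ := exists_base (T := T) (G := fun F => SigmaZero F)
    sigmaZero_empty hT
  let P : ℕ → Set T := fun n => {x | ∃ i, x ∈ (⋃ m, W (a i) m n) ∧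
    (∀ j < i, x ∉ ⋃ m, W (a j) m n) ∧ ∃ j ≤ i, ∃ m, x ∈ ⋃ k, frontier (W (a j) m k)}
  have hP : ∀ n, SigmaZero (P n) := fun n =>
    sigmaZero_layers hI (fun i m => W (a i) m n) (fun i m => hWo _ _ _)
      (fun j m => ⋃ k, frontier (W (a j) m k)) fun j m => SigmaZero.iUnion fun k => hWG _ _ _
  have hcl : ∀ x : T, x ∈ closure (range a) := fun x => by rw [ha]; exact mem_univ x
  -- the remaining points of a boundary are old
  have hold : ∀ (j : I) (m k : ℕ) (y : T), y ∈ frontier (W (a j) m k) → y ∈ (⋃ n, P n)ᶜ →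
      y ∈ closure (a '' Iio j) := by
    intro j m k y hy hyE
    rw [Metric.mem_closure_iff]
    intro ε hε
    obtain ⟨n, hn⟩ := exists_nat_one_div_lt hε
    have hne : {i | y ∈ ⋃ m, W (a i) m n}.Nonempty := by
      obtain ⟨m', hm'⟩ := hbase y n
      obtain ⟨_, ⟨i, rfl⟩, hi⟩ := Metric.mem_closure_iff.1 (hcl y) (1 / ((m' : ℝ) + 1))
        (by positivity)
      exact ⟨i, mem_iUnion.2 ⟨m', hm' _ (by rw [dist_comm]; exact hi)⟩⟩
    set i := WellFounded.min (wellFounded_lt (α := I)) {i | y ∈ ⋃ m, W (a i) m n} hne with hi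
    have him : y ∈ ⋃ m, W (a i) m n := WellFounded.min_mem (wellFounded_lt (α := I)) _ hne
    have hlt : ∀ j < i, y ∉ ⋃ m, W (a j) m n := fun j hj hxj =>
      WellFounded.not_lt_min (wellFounded_lt (α := I)) {i | y ∈ ⋃ m, W (a i) m n} hxj hj
    have hij : i < j := by
      by_contra hle
      rw [not_lt] at hle
      exact hyE (mem_iUnion.2 ⟨n, i, him, hlt, j, hle, m, mem_iUnion.2 ⟨k, hy⟩⟩)
    obtain ⟨m', hm'⟩ := mem_iUnion.1 him
    refine ⟨a i, ⟨i, hij, rfl⟩, ?_⟩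
    have h1 := hWb _ _ _ hm'
    rw [mem_ball] at h1
    exact h1.trans hn
  refine ⟨(⋃ n, P n)ᶜ, ?_, ?_⟩
  · rw [compl_compl]
    exact SigmaZero.iUnion hP
  · intro x hx U hU hxU
    obtain ⟨ε, hε, hεU⟩ := Metric.isOpen_iff.1 hU x hxU
    obtain ⟨n, hn⟩ := exists_nat_one_div_lt (half_pos hε)
    obtain ⟨m, hm⟩ := hbase x n
    obtain ⟨_, ⟨j, rfl⟩, hj⟩ := Metric.mem_closure_iff.1 (hcl x) (1 / ((m : ℝ) + 1))
      (by positivity)
    have hxW : x ∈ W (a j) m n := hm _ (by rw [dist_comm]; exact hj)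
    refine ⟨W (a j) m n, hWo _ _ _, hxW, fun y hy => hεU ?_, ?_⟩
    · have h1 := hWb _ _ _ hy.1
      have h2 := hWb _ _ _ hxW
      rw [mem_ball] at h1 h2 ⊢
      calc dist y x ≤ dist y (a j) + dist x (a j) := dist_triangle_right _ _ _
        _ < 1 / ((n : ℝ) + 1) + 1 / ((n : ℝ) + 1) := add_lt_add h1 h2
        _ ≤ ε := by linarith
    · have hcount : (a '' Iio j).Countable := ((hI j).mono Iio_subset_Iic_self).image a
      refine hcount.isSeparable.closure.mono ?_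
      rintro y ⟨⟨hy1, hy2⟩, hy3⟩
      refine hold j m n y ?_ hy2
      rw [(hWo _ _ _).frontier_eq]
      exact ⟨closure_mono inter_subset_left hy1, hy3⟩

/-- rim-separable subspaces of subspaces -/
theorem RimSep.image_val {X : Type u} [TopologicalSpace X] {M : Set X} {E : Set M}
    (h : RimSep E) : RimSep (Subtype.val '' E : Set X) := by
  rintro _ ⟨t, ht, rfl⟩ U hU hxU
  obtain ⟨V, hV, htV, h1, h2⟩ := h t ht (Subtype.val ⁻¹' U) (hU.preimage continuous_subtype_val) hxU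
  obtain ⟨V₀, hV₀, rfl⟩ := isOpen_induced_iff.1 hV
  refine ⟨V₀, hV₀, htV, ?_, ?_⟩
  · rintro _ ⟨hs, s, hsZ, rfl⟩
    exact h1 ⟨hs, hsZ⟩
  · refine (h2.image continuous_subtype_val).mono ?_
    rintro _ ⟨⟨hs, s, hsZ, rfl⟩, hsV⟩
    refine ⟨s, ⟨⟨?_, hsZ⟩, hsV⟩, rfl⟩
    rw [closure_subtype]
    refine closure_mono ?_ hs
    rintro _ ⟨hr, r, hrZ, rfl⟩
    exact ⟨r, ⟨hr, hrZ⟩, rfl⟩

/-- **Reduction to rim-separable subspaces.** -/
theorem sigmaZero_of_rimSep {X : Type u} [MetricSpace X] (hloc : LocAlephOne X) {α : Ordinal.{v}}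
    (htr : TrindLe (univ : Set X) α) (hY : ∀ Y : Set X, RimSep Y → SigmaZero Y) :
    SigmaZero (univ : Set X) := by
  have key : ∀ O : Set X, (∃ D : Set X, #D ≤ ℵ₁ ∧ O ⊆ closure D) → SigmaZero (univ ∩ O) := by
    refine htr (fun A _ => ∀ O : Set X, (∃ D : Set X, #D ≤ ℵ₁ ∧ O ⊆ closure D) →
      SigmaZero (A ∩ O)) ?_
    intro A α' hA O hO
    obtain ⟨D, hD, hOD⟩ := hO
    -- the subspace
    obtain ⟨D', hD', hDd'⟩ := exists_dense_subtype (M := A ∩ O) hD (inter_subset_right.trans hOD)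
    obtain ⟨I, h1, h2, a, h3, h4⟩ := exists_enumeration hD'
    have hrim : ∀ x : ↥(A ∩ O), ∀ U : Set ↥(A ∩ O), IsOpen U → x ∈ U →
        ∃ V, IsOpen V ∧ x ∈ V ∧ V ⊆ U ∧ SigmaZero (frontier V) := by
      intro x U hU hxU
      obtain ⟨U₀, hU₀, rfl⟩ := isOpen_induced_iff.1 hU
      obtain ⟨V, hV, hxV, g1, g2⟩ := hA x x.2.1 U₀ hU₀ hxU
      have hfr : frontier (Subtype.val ⁻¹' V : Set ↥(A ∩ O)) ⊆
          Subtype.val ⁻¹' (((closure (V ∩ A) ∩ A) \ V) ∩ O) := by
        intro y hy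
        rw [(hV.preimage continuous_subtype_val).frontier_eq] at hy
        refine ⟨⟨⟨?_, y.2.1⟩, hy.2⟩, y.2.2⟩
        have hy1 := hy.1
        rw [closure_subtype] at hy1
        refine closure_mono ?_ hy1
        rintro _ ⟨z, hz, rfl⟩
        exact ⟨hz, z.2.1⟩
      refine ⟨Subtype.val ⁻¹' V, hV.preimage continuous_subtype_val, hxV, ?_, ?_⟩
      · intro y hy
        exact g1 ⟨hy, y.2.1⟩
      · rcases g2 with g2 | ⟨β, -, g2⟩
        · rw [g2, empty_inter, preimage_empty] at hfr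
          exact sigmaZero_empty.mono hfr
        · exact ((g2 O ⟨D, hD, hOD⟩).preimage_val (M := A ∩ O)).mono hfr
    obtain ⟨E, hE1, hE2⟩ := exists_rimSep hrim h3 a (by rw [h4]; exact hDd'.closure_eq)
    have h5 := (hY _ hE2.image_val).union hE1.image_val
    refine h5.mono ?_
    intro x hx
    by_cases hxE : (⟨x, hx⟩ : ↥(A ∩ O)) ∈ E
    · exact Or.inl ⟨_, hxE, rfl⟩
    · exact Or.inr ⟨⟨x, hx⟩, hxE, rfl⟩
  refine sigmaZero_of_local fun x _ => ?_
  obtain ⟨O, hO, hxO, D, hD, hOD⟩ := hloc x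
  refine ⟨O, hO, hxO, ?_⟩
  have := key O ⟨D, hD, hOD⟩
  rw [inter_comm]
  exact this

end Pool.Agent.RN69
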